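import Pool.Agent.H521Z.Flux.Main

/-!
# `Ham_c` need not be `C⁰`-closed in `Symp_{c,0}` for a noncompact symplectic manifold

The manifold is the product of four round 2-spheres of areas `4π · 2`, `4π (1 + √2)`, `4π`, `4π`
with the two points (N,N,N,N) and (S,S,S,S) removed.
-/

open scoped Manifold ContDiff

namespace Pool.Agent.Results.MP_e3d95b_gt.AFluxNotClosed

open Pool.Agent.H521Z.Flux

/-- There are a connected symplectic manifold without boundary `(M, η)`, an element `ψ` of
`Symp_{c,0}(M, η)` which is not in `Ham_c(M, η)`, and elements `φ n` of `Ham_c(M, η)` (and of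
`Symp_{c,0}(M, η)`), all supported in one compact set, which converge uniformly to `ψ`. -/
theorem result : ∃ (E : Type) (_ : NormedAddCommGroup E) (_ : NormedSpace ℝ E)
    (_ : FiniteDimensional ℝ E) (H : Type) (_ : TopologicalSpace H) (I : ModelWithCorners ℝ E H)
    (_ : I.Boundaryless) (M : Type) (_ : TopologicalSpace M) (_ : ChartedSpace H M)
    (_ : IsManifold I ∞ M) (_ : T2Space M) (_ : SecondCountableTopology M) (_ : ConnectedSpace M)
    (η : BilinField I M), IsSymplecticForm η ∧
      ∃ ψ ∈ SympC0 η, ψ ∉ HamC η ∧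
        ∃ φ : ℕ → M → M, (∀ n, φ n ∈ HamC η ∧ φ n ∈ SympC0 η) ∧ C0Tendsto φ ψ := by
  obtain ⟨s, hs⟩ := exists_notMem
  obtain ⟨a, ha, hlim⟩ := exists_seq s
  exact ⟨EN, inferInstance, inferInstance, inferInstance, HN, inferInstance, IN, inferInstance,
    MM, inferInstance, inferInstance, inferInstance, inferInstance, inferInstance,
    connectedSpace_MM, om, isSymplecticForm_om, psi s, psi_mem_SympC0 s, hs,
    fun k => psi (a k), fun k => ⟨ha k, psi_mem_SympC0 _⟩, c0Tendsto_psi hlim⟩

end Pool.Agent.Results.MP_e3d95b_gt.AFluxNotClosed
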